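import Pool.Agent.helper74.VQ.SpecA

/-!
# MP_07c750, project VQ, row VQA: the frame on the energy window
-/

set_option autoImplicit false

open scoped MatrixGroups ContDiff Topology UpperHalfPlane ComplexConjugate ENNReal
open UpperHalfPlane MeasureTheory Filter Set

namespace Pool.Agent.VQ

open Pool.Agent.RS

noncomputable section

/-- the inequality `2 ab ≤ a² + b²` for integrals -/
theorem VQA_amgm {X : Type} [MeasurableSpace X] (μ : Measure X) (f g : X → ℂ)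
    (hf : Integrable (fun x => ‖f x‖ ^ 2) μ) (hg : Integrable (fun x => ‖g x‖ ^ 2) μ) :
    ‖∫ x, f x * conj (g x) ∂μ‖ ≤ (∫ x, ‖f x‖ ^ 2 ∂μ + ∫ x, ‖g x‖ ^ 2 ∂μ) / 2 := by
  have h1 : ‖∫ x, f x * conj (g x) ∂μ‖ ≤ ∫ x, (‖f x‖ ^ 2 + ‖g x‖ ^ 2) / 2 ∂μ := by
    apply norm_integral_le_of_norm_le ((hf.add hg).div_const 2)
    refine Eventually.of_forall fun x => ?_
    rw [norm_mul, RCLike.norm_conj]
    show ‖f x‖ * ‖g x‖ ≤ (‖f x‖ ^ 2 + ‖g x‖ ^ 2) / 2
    nlinarith [sq_nonneg (‖f x‖ - ‖g x‖)]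
  rw [integral_div, integral_add hf hg] at h1
  exact h1

/-- the domain is measurable -/
theorem VQA_meas {Γ : Subgroup SL(2, ℝ)} {F : Set ℍ} (h : Dm Γ F) : MeasurableSet F := by
  rcases h with ⟨-, h⟩ | ⟨-, h⟩
  · exact h.meas
  · rw [h]; exact MeasurableSet.univ

/-- continuous functions with bounded support are integrable -/
theorem VQA_int {E : Type} [NormedAddCommGroup E] {F : Set ℍ} (hF : MeasurableSet F) {h : ℍ → E} (hc : Continuous h)
    (hs : ∃ b : ℝ, ∀ z ∈ F, h z ≠ 0 → dist z I ≤ b) : IntegrableOn h F := by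
  obtain ⟨b, hb⟩ := hs
  have h1 : IntegrableOn h (Metric.closedBall I b) :=
    hc.continuousOn.integrableOn_compact (isCompact_closedBall _ _)
  refine h1.of_forall_sdiff_eq_zero hF fun z hz => ?_
  by_contra h0
  exact hz.2 (hb z hz.1 h0)

/-- functions of `FP` are square integrable on the window -/
theorem VQA_fp {Γ : Subgroup SL(2, ℝ)} {F : Set ℍ} (hF : MeasurableSet F) (R : ℝ)
    {v : SL(2, ℝ) × ℝ → ℂ} (hv : FP Γ F v) : IntegrableOn (fun p => ‖v p‖ ^ 2) (PW F 2 R) mP := by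
  obtain ⟨b, hb⟩ := hv.bdd
  obtain ⟨b', hb'⟩ := hv.supp
  have hPW : MeasurableSet (PW F 2 R) := (RS.A_GMG.1 F hF).1.prod measurableSet_Icc
  set S : Set (SL(2, ℝ) × ℝ) := dG (Metric.closedBall I b') ×ˢ Wi 2 R with hS
  have hSf : mP S ≠ ⊤ := by
    rw [hS, mP, Measure.prod_prod, (RS.A_GMG.1 _ Metric.isClosed_closedBall.measurableSet).2]
    refine ENNReal.mul_ne_top (isCompact_closedBall _ _).measure_lt_top.ne ?_
    rw [Wi, Real.volume_Icc]
    exact ENNReal.ofReal_ne_top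
  have h1 : IntegrableOn (fun p => ‖v p‖ ^ 2) S mP := by
    refine Measure.integrableOn_of_bounded (M := b ^ 2) hSf (hv.meas.norm.pow_const 2).aestronglyMeasurable
      (Eventually.of_forall fun p => ?_)
    rw [Real.norm_of_nonneg (by positivity)]
    have := hb p
    have h0 := norm_nonneg (v p)
    gcongr
  refine h1.of_forall_sdiff_eq_zero hPW fun p hp => ?_
  by_contra h0
  apply hp.2
  have h2 : v p ≠ 0 := by
    intro h3
    apply h0
    rw [h3]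
    simp
  exact ⟨hb' p hp.1.1 h2, hp.1.2⟩

/-- the norm as a lower integral -/
theorem VQA_nP {F : Set ℍ} {R : ℝ} {v : SL(2, ℝ) × ℝ → ℂ} (hv : Measurable v) :
    nP F 2 R v = (∫⁻ g in dG F, (∫⁻ E in Wi 2 R, ‖v (g, E)‖ₑ ^ 2) ∂mG).toReal := by
  have : SigmaFinite mG := RS.A_GMG.2.2.1
  rw [nP, integral_eq_lintegral_of_nonneg_ae (Eventually.of_forall fun p => by positivity)
    (hv.norm.pow_const 2).aestronglyMeasurable]
  congr 1
  have h1 : ∀ p, ENNReal.ofReal (‖v p‖ ^ 2) = ‖v p‖ₑ ^ 2 := fun p => by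
    rw [ENNReal.ofReal_pow (norm_nonneg _), ofReal_norm]
  simp only [h1]
  rw [PW, mP, ← Measure.prod_restrict, lintegral_prod]
  exact (hv.enorm.pow_const 2).aemeasurable

/-- splitting of the energies -/
theorem VQA_split {F : Set ℍ} {U : ℍ → ℝ} {R : ℝ} {v : SL(2, ℝ) × ℝ → ℂ} (hv : Measurable v)
    (hU : ∀ (g : SL(2, ℝ)), Wi 2 R ⊆ {E : ℝ | -(U (g • I) / 2) < E}) :
    ∫⁻ g in dG F, (∫⁻ E in {E : ℝ | -(U (g • I) / 2) < E}, ‖v (g, E)‖ₑ ^ 2) ∂mG =
      ∫⁻ g in dG F, (∫⁻ E in Wi 2 R, ‖v (g, E)‖ₑ ^ 2) ∂mG +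
      ∫⁻ g in dG F, (∫⁻ E in {E : ℝ | -(U (g • I) / 2) < E} \ Wi 2 R, ‖v (g, E)‖ₑ ^ 2) ∂mG := by
  have hm : Measurable (fun g : SL(2, ℝ) => ∫⁻ E in Wi 2 R, ‖v (g, E)‖ₑ ^ 2) :=
    Measurable.lintegral_prod_right' (f := fun p : SL(2, ℝ) × ℝ => ‖v p‖ₑ ^ 2) (hv.enorm.pow_const 2)
  have hW : MeasurableSet (Wi 2 R) := measurableSet_Icc
  rw [← lintegral_add_left hm]
  congr 1
  funext g
  rw [← lintegral_inter_add_sdiff _ _ hW, inter_eq_self_of_subset_right (hU g)]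

theorem VQA_proof (h1 : VIS_stmt) (h2 : VQS_stmt) : VQA_stmt := by
  intro ch ζ hch hζ hζ'
  obtain ⟨R1, hR1, H1⟩ := h1 ch ζ hch hζ hζ'
  obtain ⟨R2, hR2, H2⟩ := h2 ch ζ hch hζ hζ'
  refine ⟨max (max R1 R2) 5000, (by norm_num : (1 : ℝ) ≤ 5000).trans (le_max_right _ _), ?_⟩
  intro R Γ F U hR hD hU
  have hRa : R1 ≤ R := (le_max_left _ _).trans ((le_max_left _ _).trans hR)
  have hRb : R2 ≤ R := (le_max_right _ _).trans ((le_max_left _ _).trans hR)
  have hRc : 5000 ≤ R := (le_max_right _ _).trans hR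
  have hF := VQA_meas hD
  obtain ⟨-, -, -, hQ, hS, hdual⟩ := H2 R Γ F U hRb hD hU
  have hV := fun φ => H1 R Γ F U φ hRa hD hU
  -- the window
  have hw : 2 * R ^ (-(1 / 4) : ℝ) < 1 / 4 := by
    have e1 : (8 : ℝ) < R ^ (1 / 4 : ℝ) := by
      have e2 : (8 : ℝ) = (4096 : ℝ) ^ (1 / 4 : ℝ) := by
        rw [show (4096 : ℝ) = 8 ^ (4 : ℝ) by norm_num, ← Real.rpow_mul (by norm_num)]
        norm_num
      rw [e2]
      exact Real.rpow_lt_rpow (by norm_num) (by linarith) (by norm_num)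
    rw [Real.rpow_neg (by linarith)]
    have e3 : (R ^ (1 / 4 : ℝ))⁻¹ < 8⁻¹ := by
      rw [inv_lt_inv₀ (by linarith) (by norm_num)]
      exact e1
    linarith
  have hWi : ∀ (g : SL(2, ℝ)), Wi 2 R ⊆ {E : ℝ | -(U (g • I) / 2) < E} := by
    intro g E hE
    have e1 := (hU.bd (g • I)).1
    have e2 := hE.1
    simp only [mem_ofPred_eq]
    linarith
  -- duality
  have hB : ∀ v, FP Γ F v → nn F (Qs U ch ζ R v) ≤ nP F 2 R v := by
    intro v hv
    have e1 := hS v hv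
    obtain ⟨-, e2⟩ := hQ _ e1
    have e3 := hdual _ v e1 hv
    have e4 : ∫ z in F, Qs U ch ζ R v z * conj (Qs U ch ζ R v z) = ((nn F (Qs U ch ζ R v) : ℝ) : ℂ) := by
      rw [nn, ← integral_complex_ofReal]
      congr 1
      funext z
      rw [Complex.mul_conj, Complex.normSq_eq_norm_sq]
    rw [e4] at e3
    have e5 := VQA_amgm (mP.restrict (PW F 2 R)) (QF U ch ζ R (Qs U ch ζ R v)) v (VQA_fp hF R e2) (VQA_fp hF R hv)
    rw [e3, Complex.norm_real] at e5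
    have e6 := le_abs_self (nn F (Qs U ch ζ R v))
    have e7 : nP F 2 R (QF U ch ζ R (Qs U ch ζ R v)) ≤ nn F (Qs U ch ζ R v) := by
      rw [VQA_nP e2.meas]
      have e8 := hV _ e1
      rw [VQA_split e2.meas hWi] at e8
      have e9 : 0 ≤ nn F (Qs U ch ζ R v) := integral_nonneg fun z => by positivity
      rw [← ENNReal.toReal_ofReal e9, ← e8]
      refine ENNReal.toReal_mono ?_ le_self_add
      rw [e8]
      exact ENNReal.ofReal_ne_top
    rw [Real.norm_eq_abs] at e5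
    have e8 : nn F (Qs U ch ζ R v) ≤ (nP F 2 R (QF U ch ζ R (Qs U ch ζ R v)) + nP F 2 R v) / 2 := e6.trans e5
    linarith
  refine ⟨fun φ hφ => ?_, hB⟩
  obtain ⟨-, hq⟩ := hQ φ hφ
  have e8 := hV _ hφ
  rw [VQA_split hq.meas hWi] at e8
  have e9 : 0 ≤ nn F φ := integral_nonneg fun z => by positivity
  have hsum : nn F φ = nP F 2 R (QF U ch ζ R φ) +
      (∫⁻ g in dG F, (∫⁻ E in {E : ℝ | -(U (g • I) / 2) < E} \ Wi 2 R, ‖QF U ch ζ R φ (g, E)‖ₑ ^ 2) ∂mG).toReal := by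
    rw [VQA_nP hq.meas, ← ENNReal.toReal_add, e8, ENNReal.toReal_ofReal e9]
    · refine ne_top_of_le_ne_top ENNReal.ofReal_ne_top (e8 ▸ le_self_add)
    · refine ne_top_of_le_ne_top ENNReal.ofReal_ne_top (e8 ▸ le_add_self)
  have hX := ENNReal.toReal_nonneg
    (a := ∫⁻ g in dG F, (∫⁻ E in {E : ℝ | -(U (g • I) / 2) < E} \ Wi 2 R, ‖QF U ch ζ R φ (g, E)‖ₑ ^ 2) ∂mG)
  refine ⟨by linarith, ?_⟩
  set w := Qs U ch ζ R (QF U ch ζ R φ) with hwdef
  have hwF : FH Γ F w := hS _ hq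
  have f1 : nn F w ≤ nP F 2 R (QF U ch ζ R φ) := hB _ hq
  have f2 : ∫ z in F, φ z * conj (w z) = ((nP F 2 R (QF U ch ζ R φ) : ℝ) : ℂ) := by
    rw [hwdef, ← hdual φ _ hφ hq, nP, ← integral_complex_ofReal]
    congr 1
    funext z
    rw [Complex.mul_conj, Complex.normSq_eq_norm_sq]
  obtain ⟨b1, hb1⟩ := hφ.supp
  obtain ⟨b2, hb2⟩ := hwF.supp
  have i1 : IntegrableOn (fun z => ‖w z‖ ^ 2) F := by
    apply VQA_int hF (hwF.cont.norm.pow 2)
    refine ⟨b2, fun z hz h0 => hb2 z hz fun h3 => h0 ?_⟩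
    simp [h3]
  have i2 : IntegrableOn (fun z => ‖φ z‖ ^ 2) F := by
    apply VQA_int hF (hφ.cont.norm.pow 2)
    refine ⟨b1, fun z hz h0 => hb1 z hz fun h3 => h0 ?_⟩
    simp [h3]
  have i3 : IntegrableOn (fun z => φ z * conj (w z)) F := by
    apply VQA_int hF (hφ.cont.mul (Complex.continuous_conj.comp hwF.cont))
    refine ⟨b1, fun z hz h0 => hb1 z hz fun h3 => h0 ?_⟩
    simp [h3]
  have i4 : IntegrableOn (fun z => (φ z * conj (w z)).re) F := i3.re
  have f3 : ∫ z in F, (φ z * conj (w z)).re = nP F 2 R (QF U ch ζ R φ) := by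
    have := integral_re i3
    simp only [RCLike.re_eq_complex_re] at this
    rw [this, f2, Complex.ofReal_re]
  have f4 : nn F (fun z => w z - φ z) = nn F w - 2 * nP F 2 R (QF U ch ζ R φ) + nn F φ := by
    have g1 : ∀ z, ‖w z - φ z‖ ^ 2 = ‖w z‖ ^ 2 - 2 * (φ z * conj (w z)).re + ‖φ z‖ ^ 2 := by
      intro z
      rw [← Complex.normSq_eq_norm_sq, ← Complex.normSq_eq_norm_sq, ← Complex.normSq_eq_norm_sq, Complex.normSq_sub]
      have : (w z * conj (φ z)).re = (φ z * conj (w z)).re := by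
        simp only [Complex.mul_re, Complex.conj_re, Complex.conj_im]
        ring
      rw [this]
      ring
    have g2 := integral_add (i1.sub (i4.const_mul 2)) i2
    have g3 := integral_sub i1 (i4.const_mul 2)
    have g4 := integral_const_mul (μ := volume.restrict F) 2 (fun z => (φ z * conj (w z)).re)
    simp only [Pi.sub_apply] at g2 g3
    rw [g3, g4, f3] at g2
    rw [nn, nn, nn, ← g2]
    simp only [g1]
  rw [f4]
  linarith

end

end Pool.Agent.VQ
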