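import Pool.Agent.helper84.VQ.Spec4a

/-!
# MP_07c750, project VQ, row SD4: shadowing
-/

set_option autoImplicit false

open scoped MatrixGroups ContDiff Topology UpperHalfPlane ComplexConjugate ENNReal
open UpperHalfPlane MeasureTheory Filter Set

namespace Pool.Agent.VQ

open Pool.Agent.RS
open Pool.Agent.VQE (nm)

noncomputable section

theorem SD4_nm_one : nm (1 : SL(2, ℝ)) = 0 := by
  simp [nm]

theorem SD4_lM_inv (u : ℝ) : (lM u)⁻¹ = lM (-u) := by
  rw [inv_eq_iff_mul_eq_one]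
  ext i j
  fin_cases i <;> fin_cases j <;> simp [lM, Matrix.mul_apply, Fin.sum_univ_two]

theorem SD4_lM_cont : Continuous lM := by
  refine Continuous.subtype_mk ?_ _
  refine continuous_matrix fun i j => ?_
  fin_cases i <;> fin_cases j <;> simp <;> fun_prop

/-- the orbit of `g` as a pseudo-orbit -/
theorem SD4_PO {d : ℝ} {D : Dyn} (hF : FE d D) {E t ε : ℝ} (n : ℕ) (g : SL(2, ℝ)) (hE : |E| ≤ d / 4) (hε : 0 ≤ ε) :
    PO D d t ε n (fun i => (D.fl E (i * t) g, E)) := by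
  refine ⟨fun i _ => hE, fun i _ => ⟨?_, ?_⟩⟩
  · have h1 : (((i + 1 : ℕ) : ℝ) * t) = t + i * t := by push_cast; ring
    simp only [h1]
    rw [hF.add E t (i * t) g hE, inv_mul_cancel, SD4_nm_one]
    exact hε
  · simp only [sub_self, abs_zero]
    exact hε

theorem SD4_proof (hFE4 : FE4_stmt) (hDI4 : DI4_stmt) (hPO4 : PO4_stmt) (hAR4 : AR4_stmt) : SD4_stmt := by
  intro Γ hΓ
  obtain ⟨K0, hK0, H0⟩ := hFE4 Γ hΓ
  obtain ⟨K, hK, HD⟩ := hDI4
  set d : ℝ := min (1 / 10) (1 / K) with hd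
  have hd0 : 0 < d := lt_min (by norm_num) (by positivity)
  have hdK : d ≤ 1 / K := min_le_right _ _
  refine ⟨d / K0, 10, by positivity, by norm_num, fun B A hA => ?_⟩
  obtain ⟨R0, hR0, HA⟩ := hAR4 A 1 K d hA le_rfl hK hd0
  refine ⟨R0, by linarith, fun R D hR hD p q hpq => ?_⟩
  have hK0d : K0 * (d / K0) = d := by field_simp
  have hF : FE d D := by
    have h := H0 (d / K0) B D (by positivity) (by rw [hK0d]; exact min_le_left _ _) hD
    rwa [hK0d] at h
  obtain ⟨k, t, ε, hk, ht1, ht2, hsg, hr0, hr1, hε, h3r, h2r, hKn, hρ, hE, -, -⟩ := HA R hR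
  set ρ : ℝ := R ^ (-(1 / 2) + 3 / 2 * A.z2) with hρd
  obtain ⟨w', hw', hw0, hwn, hwE⟩ := hPO4 d D hF A R t ε k p q hsg hk hA.m hr0 hr1 h3r hE hpq
  set n : ℕ := A.m * k with hn
  have hn1 : 1 * n = n := one_mul n
  rw [hn1] at hKn
  have hR1 : (1 : ℝ) ≤ R := by linarith
  have hρ0 : 0 < ρ := Real.rpow_pos_of_pos (by linarith) _
  have hnn : (0 : ℝ) ≤ n := Nat.cast_nonneg n
  have hεK : ε ≤ K * ((n + 1) * ε) := by
    have h1 : 1 * ε ≤ (n + 1) * ε := by
      apply mul_le_mul_of_nonneg_right _ hε.le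
      linarith
    have h2 : 1 * ((n + 1) * ε) ≤ K * ((n + 1) * ε) := by
      apply mul_le_mul_of_nonneg_right hK
      positivity
    linarith
  have h2r' : 2 * ((A.m + 1) * A.r R) ≤ ε := by
    have h := h2r
    push_cast at h
    linarith
  have hmr : (A.m + 1) * A.r R ≤ ε := by
    have : 0 ≤ (A.m + 1) * A.r R := by positivity
    linarith
  have hKinv : 1 / (10 * K) ≤ 1 / K := by
    apply one_div_le_one_div_of_le (by linarith)
    linarith
  have hKinv1 : 1 / K ≤ 1 := by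
    rw [div_le_one (by linarith)]
    exact hK
  have hpE : |p.2| ≤ d / 4 := by
    have h := hw'.en 0 (Nat.zero_le _)
    rwa [hw0] at h
  refine ⟨?_, ?_⟩
  · have h1 := hwE n le_rfl
    rw [hwn.2, abs_sub_comm] at h1
    linarith
  -- the family of orbits
  set wu : ℝ → ℕ → SL(2, ℝ) × ℝ := fun u i => (D.fl p.2 (i * t) (p.1 * lM u), p.2) with hwu
  have key : ∀ u : ℝ, |u| ≤ ρ →
      (((wu u n).1⁻¹ * (w' n).1).1 1 0 = 0 → ∀ i ≤ n, nm ((wu u i).1⁻¹ * (w' i).1) ≤ K * ((n + 1) * ε)) ∧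
      (K * ((n + 1) * ε) ≤ |-u| → 0 < -u * ((wu u n).1⁻¹ * (w' n).1).1 1 0) := by
    intro u hu
    refine HD d D hF hd0 hdK t ε (-u) n (wu u) w' ht1 ht2 hε (by linarith) (SD4_PO hF n _ hpE hε.le) hw' ?_ ?_ ?_
    · intro i hi
      exact (hwE i hi).trans hmr
    · simp only [hwu, hw0, Nat.cast_zero, zero_mul]
      rw [hF.zero, mul_inv_rev, mul_assoc, inv_mul_cancel, mul_one, SD4_lM_inv]
    · rw [abs_neg]
      linarith
  have hcont : Continuous (fun u : ℝ => ((wu u n).1⁻¹ * (w' n).1).1 1 0) := by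
    have h1 : Continuous (fun u : ℝ => D.fl p.2 (n * t) (p.1 * lM u)) := by
      have h2 : Continuous (fun u : ℝ => ((p.2, ((n : ℝ) * t, p.1 * lM u)) : ℝ × ℝ × SL(2, ℝ))) :=
        continuous_const.prodMk (continuous_const.prodMk (continuous_const.mul SD4_lM_cont))
      exact hF.cont.comp_continuous h2 fun u => hpE
    have h3 : Continuous (fun u : ℝ => (D.fl p.2 (n * t) (p.1 * lM u))⁻¹ * (w' n).1) := h1.inv.mul continuous_const
    exact (continuous_apply_apply 1 0).comp (continuous_subtype_val.comp h3)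
  have hpos : 0 ≤ ((wu (-ρ) n).1⁻¹ * (w' n).1).1 1 0 := by
    have h1 := (key (-ρ) (by rw [abs_neg, abs_of_pos hρ0])).2 (by rw [neg_neg, abs_of_pos hρ0]; exact hKn)
    rw [neg_neg] at h1
    exact (pos_of_mul_pos_right h1 hρ0.le).le
  have hneg : ((wu ρ n).1⁻¹ * (w' n).1).1 1 0 ≤ 0 := by
    have h1 := (key ρ (by rw [abs_of_pos hρ0])).2 (by rw [abs_neg, abs_of_pos hρ0]; exact hKn)
    by_contra h2
    rw [not_le] at h2
    have := mul_pos hρ0 h2
    linarith
  obtain ⟨u, hu, hu0⟩ := intermediate_value_Icc' (by linarith : -ρ ≤ ρ) hcont.continuousOn ⟨hneg, hpos⟩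
  have hur : |u| ≤ ρ := abs_le.2 hu
  have hnt : A.tu R = n * t := by
    rw [Prm.tu, hsg, hn]
    push_cast
    ring
  have hnm := (key u hur).1 hu0 n le_rfl
  refine ⟨u, (D.fl p.2 (A.tu R) (p.1 * lM u))⁻¹ * q.1, hur, rfl, ?_, ?_⟩
  · have hu0' : ((D.fl p.2 (n * t) (p.1 * lM u))⁻¹ * (w' n).1).1 1 0 = 0 := hu0
    rw [hnt]
    rcases hwn.1 with h | h
    · rw [← h]
      exact hu0'
    · rw [h, mul_neg, Matrix.SpecialLinearGroup.coe_neg, Matrix.neg_apply, neg_eq_zero] at hu0'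
      exact hu0'
  · have hnm' : nm ((D.fl p.2 (n * t) (p.1 * lM u))⁻¹ * (w' n).1) ≤ K * ((n + 1) * ε) := hnm
    rw [hnt]
    rcases hwn.1 with h | h
    · left
      rw [← h]
      linarith
    · right
      rw [h, mul_neg] at hnm'
      linarith

end

end Pool.Agent.VQ
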